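import Pool.Agent.BHTri.Final

set_option autoImplicit false

/-!
# The graph with the largest spectral radius among the graphs with `m` edges and without a cycle of
length `2 k` (or `2 k + 1`) sharing an edge with a triangle, for every large `m`
-/

namespace Pool.Agent.Results.MP_c4c42c_co.AllSizes

open Pool.Agent.BHTri

universe u

/-- For every `k ≥ 2` and every large number `m` of edges, write
`m = k.choose 2 + k * t + r` with `r < k`. The graph `hubExt k t r` is the unique graph with the
largest spectral radius among all graphs with `m` edges, without isolated vertices, which contain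
no `cTri (2 * k)` or contain no `cTri (2 * k + 1)`. Moreover the bound of the conjecture holds,
with equality exactly for the join of a complete and an edgeless graph. -/
theorem result (k : ℕ) (hk : 2 ≤ k) :
    (∀ t r : ℕ, r < k → (hubExt k t r).edgeSet.ncard = k.choose 2 + k * t + r ∧
      (∀ v, ∃ w, (hubExt k t r).Adj v w) ∧ (cTri (2 * k)).Free (hubExt k t r) ∧
      (cTri (2 * k + 1)).Free (hubExt k t r)) ∧
    ∃ m₀ : ℕ, ∀ (V : Type u) [Fintype V] (G : SimpleGraph V),
      m₀ ≤ G.edgeSet.ncard → (∀ v, ∃ w, G.Adj v w) →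
      ((cTri (2 * k)).Free G ∨ (cTri (2 * k + 1)).Free G) →
      (lam G ≤ ((k : ℝ) - 1 + Real.sqrt (4 * G.edgeSet.ncard - (k : ℝ) ^ 2 + 1)) / 2 ∧
        (lam G = ((k : ℝ) - 1 + Real.sqrt (4 * G.edgeSet.ncard - (k : ℝ) ^ 2 + 1)) / 2 ↔
          ∃ t : ℕ, G.edgeSet.ncard = k.choose 2 + k * t ∧ Nonempty (G ≃g joinKI k t))) ∧
      ∀ t r : ℕ, r < k → G.edgeSet.ncard = k.choose 2 + k * t + r →
        lam G ≤ lam (hubExt k t r) ∧
          (lam G = lam (hubExt k t r) ↔ Nonempty (G ≃g hubExt k t r)) :=
  ⟨fun t r hr => ⟨ncard_hubExt hr, hubExt_no_isolated hk, (hubExt_free hk).1,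
    (hubExt_free hk).2⟩, extremal k hk⟩

end Pool.Agent.Results.MP_c4c42c_co.AllSizes
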